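import Pool.Agent.N912.MS.All

/-!
The Matomäki–Radziwiłł theorem for short squares (and for all dilated Følner sequences) of Gaussian
integers: for every bounded completely multiplicative real function `f` with `f(i) = 1` the averages
over almost all short squares are close to the mean value `P(f)`.

The engine is in `Pool/Agent/N912/MS` and in the files of the co-authors.
-/

set_option autoImplicit false

namespace Pool.Agent.Results.MP_41f28e_nt.ShortSquares

open Finset Filter MeasureTheory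

/-- bounded completely multiplicative real functions of the nonzero Gaussian integers, `f(i) = 1` -/
structure BCM (f : GaussianInt → ℝ) : Prop where
  mul : ∀ m n : GaussianInt, m ≠ 0 → n ≠ 0 → f (m * n) = f m * f n
  bdd : ∃ B : ℝ, ∀ n : GaussianInt, n ≠ 0 → |f n| ≤ B
  unit : f ⟨0, 1⟩ = 1

/-- the Gaussian primes with `Re p > 0`, `Im p ≥ 0` -/
def P₁ : Set GaussianInt := {p | Prime p ∧ 0 < p.re ∧ 0 ≤ p.im}

/-- the partial product of `P(f)` over the primes of norm at most `x` -/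
noncomputable def partialP (f : GaussianInt → ℝ) (x : ℕ) : ℝ :=
  ∏ᶠ p ∈ {p : GaussianInt | p ∈ P₁ ∧ p.norm ≤ x}, ((p.norm : ℝ) - 1) / ((p.norm : ℝ) - f p)

/-- the average over a finite set -/
noncomputable def E (A : Set GaussianInt) (g : GaussianInt → ℝ) : ℝ :=
  (∑ᶠ n ∈ A, g n) / (Set.ncard A : ℝ)

/-- the centred squares -/
def square (N : ℕ) : Set GaussianInt := {n | |n.re| ≤ N ∧ |n.im| ≤ N}

/-- Jordan measurable sets of positive measure -/
structure Jordan (U : Set ℂ) : Prop where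
  bdd : Bornology.IsBounded U
  null : volume (frontier U) = 0
  pos : 0 < volume U

/-- the nonzero Gaussian integers in `k U` -/
def dilate (U : Set ℂ) (k : ℝ) : Set GaussianInt :=
  {n | n ≠ 0 ∧ ∃ u ∈ U, (n.re : ℝ) = k * u.re ∧ (n.im : ℝ) = k * u.im}

/-- dilated Følner sequences -/
def Dilated (Φ : ℕ → Set GaussianInt) : Prop :=
  ∃ (U : Set ℂ) (k : ℕ → ℝ), Jordan U ∧ (∀ N, 0 < k N) ∧ Tendsto k atTop atTop ∧
    ∀ N, Φ N = dilate U (k N)

/-- the average of `f` over `n + Φ_H`, the term `0` omitted -/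
noncomputable def inner (f : GaussianInt → ℝ) (Φ : ℕ → Set GaussianInt) (H : ℕ)
    (n : GaussianInt) : ℝ :=
  E {h | h ≠ 0 ∧ ∃ u ∈ Φ H, h = n + u} f

/-- the average over `n ∈ Φ_N` of `|E_{h ∈ n + Φ_H} f(h) - μ|` -/
noncomputable def dev (f : GaussianInt → ℝ) (μ : ℝ) (Φ : ℕ → Set GaussianInt) (H N : ℕ) : ℝ :=
  E (Φ N) (fun n => |inner f Φ H n - μ|)

open scoped Classical in
/-- `f` is not of the type of the Liouville function: the sum of `1/N(p)` over the `p` with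
`f(p) < 0` converges, or the sum of `(1 - |f(p)|)/N(p)` diverges -/
def NotLiouville (f : GaussianInt → ℝ) : Prop :=
  Summable (fun p : GaussianInt => if p ∈ P₁ ∧ f p < 0 then 1 / (p.norm : ℝ) else 0) ∨
    ¬ Summable (fun p : GaussianInt => if p ∈ P₁ then (1 - |f p|) / (p.norm : ℝ) else 0)

section

open Pool.Agent.N912.MS
open Pool.Agent.W78.GA (nm)

/-- the isomorphism -/
def ι : GaussianInt ≃+* Gi where
  toFun z := ⟨z.re, z.im⟩
  invFun z := ⟨z.re, z.im⟩
  left_inv z := rfl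
  right_inv z := rfl
  map_mul' z w := by
    ext
    · simp [Zsqrtd.re_mul]
    · simp [Zsqrtd.im_mul]
  map_add' z w := by
    ext
    · simp
    · simp

theorem nm_ι (z : GaussianInt) : (nm (ι z) : ℤ) = z.norm := by
  have h1 := Pool.Agent.W78.GA.nm_cast hD4 (ι z)
  rw [h1, Zsqrtd.norm_def]
  show z.re ^ 2 + 0 * z.re * z.im + 1 * z.im ^ 2 = _
  ring

theorem nm_ιR (z : GaussianInt) : (nm (ι z) : ℝ) = (z.norm : ℝ) := by
  rw [← nm_ι]
  simp

/-- the function on `Gi` -/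
noncomputable def tr (f : GaussianInt → ℝ) (z : Gi) : ℝ :=
  open scoped Classical in if z = 0 then 0 else f (ι.symm z)

variable {f : GaussianInt → ℝ}

theorem ι_ne {n : GaussianInt} : ι n ≠ 0 ↔ n ≠ 0 := by
  rw [not_iff_not]
  exact map_eq_zero_iff ι ι.injective

theorem ιs_ne {z : Gi} : ι.symm z ≠ 0 ↔ z ≠ 0 := by
  rw [not_iff_not]
  exact map_eq_zero_iff ι.symm ι.symm.injective

theorem tr_ι {n : GaussianInt} (hn : n ≠ 0) : tr f (ι n) = f n := by
  unfold tr
  rw [if_neg (ι_ne.2 hn), RingEquiv.symm_apply_apply]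

theorem abs_le_one (hf : BCM f) {n : GaussianInt} (hn : n ≠ 0) : |f n| ≤ 1 := by
  obtain ⟨B, hB⟩ := hf.bdd
  by_contra hlt
  push Not at hlt
  obtain ⟨k, hk⟩ := pow_unbounded_of_one_lt B hlt
  have hpow : ∀ k : ℕ, |f (n ^ (k + 1))| = |f n| ^ (k + 1) := by
    intro k
    induction k with
    | zero => simp
    | succ k ih =>
      rw [pow_succ, hf.mul _ _ (pow_ne_zero _ hn) hn, abs_mul, ih, ← pow_succ]
  have h1 := hB _ (pow_ne_zero (k + 1) hn)
  rw [hpow] at h1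
  have h2 : |f n| ^ k ≤ |f n| ^ (k + 1) := pow_le_pow_right₀ hlt.le (Nat.le_succ k)
  linarith

theorem cmr (hf : BCM f) : CMR (tr f) where
  mul := fun z w hz hw => by
    have hz' := ιs_ne.2 hz
    have hw' := ιs_ne.2 hw
    have hzw : z * w ≠ 0 := by
      rw [← ιs_ne, map_mul]
      exact mul_ne_zero hz' hw'
    unfold tr
    rw [if_neg hz, if_neg hw, if_neg hzw, map_mul, hf.mul _ _ hz' hw']
  bd := fun z => by
    unfold tr
    split_ifs with h
    · simp
    · exact abs_le_one hf (ιs_ne.2 h)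
  unit := by
    have h : (⟨0, 1⟩ : Gi) = ι ⟨0, 1⟩ := rfl
    rw [h, tr_ι, hf.unit]
    intro h
    have := congrArg Zsqrtd.im h
    simp at this

theorem pr1_ι (p : GaussianInt) : Pr1 (ι p) ↔ p ∈ P₁ := by
  unfold Pr1 P₁
  exact and_congr (MulEquiv.prime_iff (ι : GaussianInt ≃* Gi)) Iff.rfl

theorem P₁_ne {p : GaussianInt} (hp : p ∈ P₁) : p ≠ 0 := hp.1.ne_zero

theorem partialP_eq (f : GaussianInt → ℝ) (x : ℕ) : partialP f x = PP2 (tr f) x := by
  classical
  unfold partialP PP2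
  have e : ((Finset.filter Pr1 (Pool.Agent.W78.GA.ball 0 1 (x : ℝ)) : Finset Gi) : Set Gi) =
      ι '' {p : GaussianInt | p ∈ P₁ ∧ p.norm ≤ x} := by
    ext z
    rw [mem_coe, mem_filter, Pool.Agent.W78.GA.mem_ball hD4]
    constructor
    · rintro ⟨⟨-, h2⟩, h3⟩
      refine ⟨ι.symm z, ⟨?_, ?_⟩, RingEquiv.apply_symm_apply _ _⟩
      · rw [← pr1_ι, RingEquiv.apply_symm_apply]
        exact h3
      · rw [← nm_ι, RingEquiv.apply_symm_apply]
        exact_mod_cast h2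
    · rintro ⟨p, ⟨h1, h2⟩, rfl⟩
      refine ⟨⟨(Pool.Agent.W78.GA.one_le_nm hD4).2 (ι_ne.2 (P₁_ne h1)), ?_⟩, (pr1_ι p).2 h1⟩
      rw [← nm_ι] at h2
      exact_mod_cast h2
  rw [← finprod_mem_coe_finset, e, finprod_mem_image ι.injective.injOn]
  refine finprod_mem_congr rfl fun p hp => ?_
  rw [nm_ιR, tr_ι (P₁_ne hp.1)]

theorem E_eq (A : Set GaussianInt) (g : GaussianInt → ℝ) (g' : Gi → ℝ)
    (h : ∀ n ∈ A, g' (ι n) = g n) : E A g = avg (ι '' A) g' := by
  unfold E avg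
  rw [finsum_mem_image ι.injective.injOn, Set.ncard_image_of_injective _ ι.injective]
  congr 1
  exact finsum_mem_congr rfl fun n hn => (h n hn).symm

theorem inner_eq (f : GaussianInt → ℝ) (Φ : ℕ → Set GaussianInt) (H : ℕ) (n : GaussianInt) :
    inner f Φ H n = avg {h | h ≠ 0 ∧ ∃ u ∈ ι '' Φ H, h = ι n + u} (tr f) := by
  unfold inner
  rw [E_eq _ _ (tr f) (fun m hm => tr_ι hm.1)]
  congr 1
  ext z
  constructor
  · rintro ⟨m, ⟨h1, u, hu, rfl⟩, rfl⟩
    exact ⟨ι_ne.2 h1, ι u, ⟨u, hu, rfl⟩, map_add ι n u⟩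
  · rintro ⟨h1, _, ⟨u, hu, rfl⟩, rfl⟩
    rw [← map_add] at h1 ⊢
    exact ⟨n + u, ⟨ι_ne.1 h1, u, hu, rfl⟩, rfl⟩

theorem dev_eq (f : GaussianInt → ℝ) (μ : ℝ) (Φ : ℕ → Set GaussianInt) (H N : ℕ) :
    dev f μ Φ H N = avg (ι '' Φ N)
      (fun n => |avg {h | h ≠ 0 ∧ ∃ u ∈ ι '' Φ H, h = n + u} (tr f) - μ|) := by
  unfold dev
  exact E_eq _ _ _ fun n _ => by rw [inner_eq]

theorem square_eq (N : ℕ) : ι '' square N = (bx2 N : Set Gi) := by
  classical
  ext z
  unfold bx2 square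
  rw [coe_image]
  constructor
  · rintro ⟨n, ⟨h1, h2⟩, rfl⟩
    refine ⟨(n.re, n.im), ?_, rfl⟩
    rw [mem_coe, mem_product, mem_Icc, mem_Icc]
    exact ⟨abs_le.1 h1, abs_le.1 h2⟩
  · rintro ⟨⟨a, b⟩, h, rfl⟩
    rw [mem_coe, mem_product, mem_Icc, mem_Icc] at h
    exact ⟨⟨a, b⟩, ⟨abs_le.2 h.1, abs_le.2 h.2⟩, rfl⟩

/-- the set in the plane -/
def pl (U : Set ℂ) : Set (ℝ × ℝ) := Complex.equivRealProdCLM '' U

theorem dilate_eq (U : Set ℂ) (k : ℝ) : ι '' dilate U k = dil (pl U) k := by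
  ext z
  unfold dil dilate pl
  constructor
  · rintro ⟨n, ⟨h1, u, hu, h2, h3⟩, rfl⟩
    exact ⟨ι_ne.2 h1, _, ⟨u, hu, rfl⟩, h2, h3⟩
  · rintro ⟨h1, _, ⟨u, hu, rfl⟩, h2, h3⟩
    refine ⟨ι.symm z, ⟨ιs_ne.2 h1, u, hu, h2, h3⟩, RingEquiv.apply_symm_apply _ _⟩

theorem jm {U : Set ℂ} (h : Jordan U) : JM (pl U) := by
  have hmp := Complex.volume_preserving_equiv_real_prod
  have e : ∀ V : Set ℂ, volume (Complex.equivRealProdCLM '' V) = volume V := by
    intro V
    have h1 : Complex.equivRealProdCLM '' V = Complex.measurableEquivRealProd '' V := rfl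
    rw [h1, MeasurableEquiv.image_eq_preimage_symm]
    exact (hmp.symm _).measure_preimage_equiv V
  refine ⟨?_, ?_, ?_⟩
  · exact Complex.equivRealProdCLM.lipschitz.isBounded_image h.bdd
  · have h1 : frontier (pl U) = Complex.equivRealProdCLM '' frontier U :=
      ((Complex.equivRealProdCLM.toHomeomorph).image_frontier U).symm
    rw [h1, e]
    exact h.null
  · show 0 < volume (Complex.equivRealProdCLM '' U)
    rw [e]
    exact h.pos

theorem finite_dil {U : Set (ℝ × ℝ)} (hU : JM U) (k : ℝ) : (dil U k).Finite := by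
  obtain ⟨C, hC⟩ := hU.bdd.exists_norm_le
  obtain ⟨B, hB⟩ : ∃ B : ℕ, |k| * C ≤ B := exists_nat_ge _
  refine Set.Finite.subset (bx2 B).finite_toSet ?_
  rintro z ⟨-, u, hu, h1, h2⟩
  have h3 := hC u hu
  have h4 : |u.1| ≤ C := (norm_fst_le u).trans h3
  have h5 : |u.2| ≤ C := (norm_snd_le u).trans h3
  have h6 : |(z.re : ℝ)| ≤ B := by
    rw [h1, abs_mul]
    exact (mul_le_mul_of_nonneg_left h4 (abs_nonneg k)).trans hB
  have h7 : |(z.im : ℝ)| ≤ B := by
    rw [h2, abs_mul]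
    exact (mul_le_mul_of_nonneg_left h5 (abs_nonneg k)).trans hB
  rw [← square_eq]
  refine ⟨ι.symm z, ⟨?_, ?_⟩, RingEquiv.apply_symm_apply _ _⟩
  · exact_mod_cast h6
  · exact_mod_cast h7

theorem cnd_of (h : NotLiouville f) : Cnd (tr f) := by
  classical
  have h1 : (fun z : Gi => if Pr1 z ∧ tr f z < 0 then 1 / (nm z : ℝ) else 0) ∘ ι =
      fun p : GaussianInt => if p ∈ P₁ ∧ f p < 0 then 1 / (p.norm : ℝ) else 0 := by
    funext p
    simp only [Function.comp, pr1_ι, nm_ιR]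
    by_cases hp : p ∈ P₁
    · rw [tr_ι (P₁_ne hp)]
    · simp [hp]
  have h2 : (fun z : Gi => if Pr1 z then (1 - |tr f z|) / (nm z : ℝ) else 0) ∘ ι =
      fun p : GaussianInt => if p ∈ P₁ then (1 - |f p|) / (p.norm : ℝ) else 0 := by
    funext p
    simp only [Function.comp, pr1_ι, nm_ιR]
    by_cases hp : p ∈ P₁
    · rw [tr_ι (P₁_ne hp)]
    · simp [hp]
  unfold NotLiouville at h
  rw [← h1, ← h2] at h
  rcases h with h | h
  · left
    exact (Equiv.summable_iff ι.toEquiv).1 h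
  · right
    exact fun h3 => h ((Equiv.summable_iff ι.toEquiv).2 h3)

theorem nl_of (hf : BCM f) (h : Pret (tr f)) : NotLiouville f := by
  classical
  left
  have h1 : (fun z : Gi => if Pr1 z then (1 - tr f z) / (nm z : ℝ) else 0) ∘ ι =
      fun p : GaussianInt => if p ∈ P₁ then (1 - f p) / (p.norm : ℝ) else 0 := by
    funext p
    simp only [Function.comp, pr1_ι, nm_ιR]
    by_cases hp : p ∈ P₁
    · rw [tr_ι (P₁_ne hp)]
    · simp [hp]
  have h2 : Summable (fun p : GaussianInt => if p ∈ P₁ then (1 - f p) / (p.norm : ℝ) else 0) := by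
    rw [← h1]
    exact (Equiv.summable_iff ι.toEquiv).2 h
  have hn : ∀ p : GaussianInt, (0 : ℝ) ≤ p.norm := fun p => by
    rw [← nm_ιR]
    exact Nat.cast_nonneg _
  refine Summable.of_nonneg_of_le ?_ ?_ h2
  · intro p
    split_ifs
    · exact div_nonneg zero_le_one (hn p)
    · exact le_rfl
  · intro p
    by_cases hp : p ∈ P₁
    · by_cases h0 : f p < 0
      · simp only [hp, h0, and_self, if_true]
        exact div_le_div_of_nonneg_right (by linarith) (hn p)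
      · simp only [hp, h0, and_false, if_true, if_false]
        exact div_nonneg (by linarith [(abs_le.1 (abs_le_one hf (P₁_ne hp))).2]) (hn p)
    · simp [hp]

theorem avg_nonneg (A : Set Gi) (g : Gi → ℝ) (hg : ∀ z, 0 ≤ g z) : 0 ≤ avg A g := by
  unfold avg
  exact div_nonneg (finsum_nonneg fun z => finsum_nonneg fun _ => hg z) (Nat.cast_nonneg _)

theorem fin_of {D : ℕ → ℕ → ℝ} (h0 : ∀ H N, 0 ≤ D H N)
    (h1 : ∀ ε : ℝ, 0 < ε → ∃ H₀ : ℕ, ∀ H : ℕ, H₀ ≤ H → ∃ N₀ : ℕ, ∀ N : ℕ, N₀ ≤ N → D H N ≤ ε)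
    (h2 : ∀ H, ∃ ℓ : ℝ, Tendsto (fun N => D H N) atTop (nhds ℓ)) :
    ∃ ℓ : ℕ → ℝ, (∀ H, Tendsto (fun N => D H N) atTop (nhds (ℓ H))) ∧
      Tendsto ℓ atTop (nhds 0) := by
  choose ℓ hℓ using h2
  refine ⟨ℓ, hℓ, ?_⟩
  rw [Metric.tendsto_atTop]
  intro ε hε
  obtain ⟨H₀, hH₀⟩ := h1 (ε / 2) (by positivity)
  refine ⟨H₀, fun H hH => ?_⟩
  obtain ⟨N₀, hN₀⟩ := hH₀ H hH
  have h3 : ℓ H ≤ ε / 2 := le_of_tendsto (hℓ H) (eventually_atTop.2 ⟨N₀, hN₀⟩)
  have h4 : 0 ≤ ℓ H := ge_of_tendsto' (hℓ H) (h0 H)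
  rw [Real.dist_eq, sub_zero, abs_of_nonneg h4]
  linarith

end

/-- Let `f` be a bounded completely multiplicative real function of the nonzero Gaussian integers
with `f(i) = 1`. Then the product `P(f)` converges, and with `μ = P(f)`, for the centred squares `Φ`
and for every dilated Følner sequence `Φ`:

1. `lim_{H → ∞} limsup_{N → ∞} E_{n ∈ Φ_N} |E_{h ∈ n + Φ_H} f(h) - P(f)| = 0`.
2. If `f` is not of the type of the Liouville function (in particular if `P(f) ≠ 0`), then the limit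
over `N` exists for every `H`, and its limit for `H → ∞` is `0`. -/
theorem result (f : GaussianInt → ℝ) (hf : BCM f) :
    ∃ μ : ℝ, Tendsto (partialP f) atTop (nhds μ) ∧ (μ ≠ 0 → NotLiouville f) ∧
      ∀ Φ : ℕ → Set GaussianInt, (Φ = square ∨ Dilated Φ) →
        (∀ ε : ℝ, 0 < ε → ∃ H₀ : ℕ, ∀ H : ℕ, H₀ ≤ H → ∃ N₀ : ℕ, ∀ N : ℕ, N₀ ≤ N →
          dev f μ Φ H N ≤ ε) ∧
        (NotLiouville f → ∃ ℓ : ℕ → ℝ, (∀ H, Tendsto (fun N => dev f μ Φ H N) atTop (nhds (ℓ H))) ∧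
          Tendsto ℓ atTop (nhds 0)) := by
  classical
  have hF := cmr hf
  obtain ⟨μ, hμ, h1, h2, h3⟩ := Pool.Agent.N912.MS.main hF
  refine ⟨μ, ?_, ?_, ?_⟩
  · have e : partialP f = Pool.Agent.N912.MS.PP2 (tr f) := funext fun x => partialP_eq f x
    rw [e]
    exact h1
  · intro h0
    by_cases hp : Pool.Agent.N912.MS.Pret (tr f)
    · exact nl_of hf hp
    · exact absurd (tendsto_nhds_unique h1 (Pool.Agent.N912.MS.hal2 _ hF hp).1) h0
  · intro Φ hΦ
    rcases hΦ with rfl | ⟨U, k, hU, hk0, hk, hΦ⟩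
    · have hdev : ∀ H N, dev f μ square H N =
          Pool.Agent.N912.MS.avg (Pool.Agent.N912.MS.bx2 N : Set Pool.Agent.N912.MS.Gi)
            (fun n => |Pool.Agent.N912.MS.avg {h | h ≠ 0 ∧ ∃ u ∈
              (Pool.Agent.N912.MS.bx2 H : Set Pool.Agent.N912.MS.Gi), h = n + u} (tr f) - μ|) := by
        intro H N
        rw [dev_eq, square_eq, square_eq]
      simp only [hdev]
      have hA := Pool.Agent.N570.MS.fin1 (tr f) μ hF.bd hμ h2
      refine ⟨hA, fun hnl => ?_⟩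
      refine fin_of (fun H N => avg_nonneg _ _ fun z => abs_nonneg _) hA fun H => ?_
      rcases h3 (cnd_of hnl) with hb | ⟨rfl, hz⟩
      · exact (Pool.Agent.N912.MS.limb (tr f) hF.bd hb (Pool.Agent.N912.MS.bx2 H) μ).2
      · refine ⟨0, ?_⟩
        simp only [sub_zero]
        exact (Pool.Agent.N912.MS.limz (tr f) hF.bd hz (Pool.Agent.N912.MS.bx2 H)).2
    · have hdev : ∀ H N, dev f μ Φ H N =
          Pool.Agent.N912.MS.avg (Pool.Agent.N912.MS.dil (pl U) (k N))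
            (fun n => |Pool.Agent.N912.MS.avg {h | h ≠ 0 ∧ ∃ u ∈
              Pool.Agent.N912.MS.dil (pl U) (k H), h = n + u} (tr f) - μ|) := by
        intro H N
        rw [dev_eq, hΦ, hΦ, dilate_eq, dilate_eq]
      simp only [hdev]
      have hJ := jm hU
      have hA := Pool.Agent.N570.MS.fin2 (tr f) μ hF.bd hμ h2 (pl U) k hJ hk0 hk
      refine ⟨hA, fun hnl => ?_⟩
      refine fin_of (fun H N => avg_nonneg _ _ fun z => abs_nonneg _) hA fun H => ?_
      have hc : ((finite_dil hJ (k H)).toFinset : Set Pool.Agent.N912.MS.Gi) =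
          Pool.Agent.N912.MS.dil (pl U) (k H) := Set.Finite.coe_toFinset _
      rcases h3 (cnd_of hnl) with hb | ⟨rfl, hz⟩
      · have := (Pool.Agent.N912.MS.limb (tr f) hF.bd hb (finite_dil hJ (k H)).toFinset μ).1
          (pl U) k hJ hk0 hk
        rw [hc] at this
        exact this
      · refine ⟨0, ?_⟩
        simp only [sub_zero]
        have := (Pool.Agent.N912.MS.limz (tr f) hF.bd hz (finite_dil hJ (k H)).toFinset).1
          (pl U) k hJ hk0 hk
        rw [hc] at this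
        exact this


end Pool.Agent.Results.MP_41f28e_nt.ShortSquares
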